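import Mathlib

/-!
# MP_451208_an, Q1: a topologically mixing subshift over `ℤ` need not be surjunctive

The alphabet consists of the subsets of `{S, M, P}`, coded as `Bool × Bool × Bool`
(first coordinate: presence of `S`, second: presence of `M`, third: presence of `P`).
The subshift `X` consists of all configurations such that whenever `M` is present at `m`, `S` is
present at `s` and `m < s`, the particle `P` is present at `2 m - s`.  The cellular automaton leaves
every `S` in place, moves every `M` by one step and every `P` by two steps to the right.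
-/

namespace Pool.Agent.Results.MP_451208_an.MixingNotSurjunctive

open Set

/-- The shift `σ(x)_n = x_{n+1}`. -/
def shift {A : Type} (x : ℤ → A) : ℤ → A := fun n => x (n + 1)

/-- Subshifts: closed sets `X` of bi-infinite sequences with `σ(X) = X`. -/
def IsSubshift {A : Type} [TopologicalSpace A] (X : Set (ℤ → A)) : Prop :=
  IsClosed X ∧ shift '' X = X

/-- Cellular automata on `X`: continuous maps `τ : X → X` commuting with the shift
(`y = σ(x)` implies `τ(y) = σ(τ(x))`). -/
def IsCellularAutomaton {A : Type} [TopologicalSpace A] (X : Set (ℤ → A)) (τ : X → X) : Prop :=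
  Continuous τ ∧
    ∀ x y : X, (y : ℤ → A) = shift (x : ℤ → A) → (τ y : ℤ → A) = shift (τ x : ℤ → A)

/-- `X` is surjunctive: each injective cellular automaton on `X` is surjective. -/
def IsSurjunctive {A : Type} [TopologicalSpace A] (X : Set (ℤ → A)) : Prop :=
  ∀ τ : X → X, IsCellularAutomaton X τ → Function.Injective τ → Function.Surjective τ

/-- `X` is topologically mixing: for all nonempty (relatively) open sets `U, V` of `X` there is `N`
with `σ^n(U) ∩ V ≠ ∅` for all `n ≥ N`. -/
def IsTopologicallyMixing {A : Type} [TopologicalSpace A] (X : Set (ℤ → A)) : Prop :=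
  ∀ U V : Set X, IsOpen U → IsOpen V → U.Nonempty → V.Nonempty →
    ∃ N : ℕ, ∀ n : ℕ, N ≤ n →
      ((shift^[n] '' (Subtype.val '' U)) ∩ (Subtype.val '' V)).Nonempty

/-- The alphabet of subsets of `{S, M, P}`. -/
abbrev Alph : Type := Bool × Bool × Bool

/-- The subshift. -/
def XX : Set (ℤ → Alph) :=
  {x | ∀ m s : ℤ, m < s → (x m).2.1 = true → (x s).1 = true → (x (2 * m - s)).2.2 = true}

lemma isClosed_XX : IsClosed XX := by
  have h : XX = ⋂ m : ℤ, ⋂ s : ℤ, (fun x : ℤ → Alph => (x m, x s, x (2 * m - s))) ⁻¹'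
      {q : Alph × Alph × Alph | m < s → q.1.2.1 = true → q.2.1.1 = true → q.2.2.2.2 = true} := by
    ext x
    simp only [XX, mem_ofPred_eq, mem_iInter, mem_preimage]
  rw [h]
  refine isClosed_iInter fun m => isClosed_iInter fun s => ?_
  refine IsClosed.preimage ?_ (isClosed_discrete _)
  fun_prop

lemma shift_image_XX : shift '' XX = XX := by
  ext x
  constructor
  · rintro ⟨y, hy, rfl⟩
    intro m s hms hM hS
    have := hy (m + 1) (s + 1) (by omega) hM hS
    show (y (2 * m - s + 1)).2.2 = true
    rw [show (2 * m - s + 1 : ℤ) = 2 * (m + 1) - (s + 1) by ring]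
    exact this
  · intro hx
    refine ⟨fun n => x (n - 1), ?_, ?_⟩
    · intro m s hms hM hS
      have := hx (m - 1) (s - 1) (by omega) hM hS
      show (x (2 * m - s - 1)).2.2 = true
      rw [show (2 * m - s - 1 : ℤ) = 2 * (m - 1) - (s - 1) by ring]
      exact this
    · funext n
      show x (n + 1 - 1) = x n
      rw [add_sub_cancel_right]

/-- The global rule: `S` stands still, `M` moves by one, `P` moves by two. -/
def rule (x : ℤ → Alph) : ℤ → Alph := fun i => ((x i).1, (x (i - 1)).2.1, (x (i - 2)).2.2)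

lemma rule_mem {x : ℤ → Alph} (hx : x ∈ XX) : rule x ∈ XX := by
  intro m s hms hM hS
  have := hx (m - 1) s (by omega) hM hS
  show (x (2 * m - s - 2)).2.2 = true
  rw [show (2 * m - s - 2 : ℤ) = 2 * (m - 1) - s by ring]
  exact this

lemma continuous_rule : Continuous rule := by
  refine continuous_pi fun i => ?_
  show Continuous fun x : ℤ → Alph => ((x i).1, (x (i - 1)).2.1, (x (i - 2)).2.2)
  fun_prop

lemma rule_injective : Function.Injective rule := by
  intro x y h
  funext i
  have h1 : (rule x i).1 = (rule y i).1 := by rw [h]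
  have h2 : (rule x (i + 1)).2.1 = (rule y (i + 1)).2.1 := by rw [h]
  have h3 : (rule x (i + 2)).2.2 = (rule y (i + 2)).2.2 := by rw [h]
  simp only [rule] at h1 h2 h3
  rw [add_sub_cancel_right] at h2 h3
  exact Prod.ext h1 (Prod.ext h2 h3)

/-- The cellular automaton on `XX`. -/
def tau (x : XX) : XX := ⟨rule x, rule_mem x.2⟩

lemma tau_isCA : IsCellularAutomaton XX tau := by
  refine ⟨?_, ?_⟩
  · exact Continuous.subtype_mk (continuous_rule.comp continuous_subtype_val) _
  · intro x y h
    show rule (y : ℤ → Alph) = shift (rule (x : ℤ → Alph))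
    rw [h]
    funext i
    show (((x : ℤ → Alph) (i + 1)).1, ((x : ℤ → Alph) (i - 1 + 1)).2.1,
      ((x : ℤ → Alph) (i - 2 + 1)).2.2) = (((x : ℤ → Alph) (i + 1)).1,
      ((x : ℤ → Alph) (i + 1 - 1)).2.1, ((x : ℤ → Alph) (i + 1 - 2)).2.2)
    rw [show i - 1 + 1 = i + 1 - 1 by ring, show i - 2 + 1 = i + 1 - 2 by ring]

lemma tau_injective : Function.Injective tau := by
  intro x y h
  apply Subtype.ext
  apply rule_injective
  exact congrArg Subtype.val h

/-- The configuration with `S` and `M` at the origin and nothing else. -/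
def orphan : ℤ → Alph := fun i => if i = 0 then (true, true, false) else (false, false, false)

lemma orphan_mem : orphan ∈ XX := by
  intro m s hms hM hS
  exfalso
  have hm : m = 0 := by
    by_contra h
    simp [orphan, h] at hM
  have hs : s = 0 := by
    by_contra h
    simp [orphan, h] at hS
  omega

lemma tau_not_surjective : ¬ Function.Surjective tau := by
  intro h
  obtain ⟨y, hy⟩ := h ⟨orphan, orphan_mem⟩
  have hy' : rule (y : ℤ → Alph) = orphan := congrArg Subtype.val hy
  have h1 : ((y : ℤ → Alph) 0).1 = true := by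
    have := congrArg Prod.fst (congrFun hy' 0)
    simpa [rule, orphan] using this
  have h2 : ((y : ℤ → Alph) (-1)).2.1 = true := by
    have := congrArg (fun q : Alph => q.2.1) (congrFun hy' 0)
    simpa [rule, orphan] using this
  have h3 : ((y : ℤ → Alph) (-2)).2.2 = false := by
    have := congrArg (fun q : Alph => q.2.2) (congrFun hy' 0)
    simpa [rule, orphan] using this
  have h4 := y.2 (-1) 0 (by norm_num) h2 h1
  have h5 : ((y : ℤ → Alph) (-2)).2.2 = true := by
    rw [show (-2 : ℤ) = 2 * (-1) - 0 by norm_num]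
    exact h4
  rw [h3] at h5
  exact absurd h5 (by simp)

lemma window {U : Set (ℤ → Alph)} (hU : IsOpen U) {u : ℤ → Alph} (hu : u ∈ U) :
    ∃ L : ℕ, ∀ z : ℤ → Alph, (∀ i : ℤ, -(L : ℤ) ≤ i → i ≤ L → z i = u i) → z ∈ U := by
  obtain ⟨I, w, hw, hsub⟩ := isOpen_pi_iff.1 hU u hu
  refine ⟨∑ i ∈ I, i.natAbs, fun z hz => hsub ?_⟩
  intro i hi
  have hi' : i ∈ I := hi
  have hle : i.natAbs ≤ ∑ j ∈ I, j.natAbs :=
    Finset.single_le_sum (f := fun j : ℤ => j.natAbs) (fun j _ => Nat.zero_le _) hi'
  rw [hz i (by omega) (by omega)]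
  exact (hw i hi').2

lemma shift_iterate (n : ℕ) (x : ℤ → Alph) (i : ℤ) : (shift^[n] x) i = x (i + n) := by
  induction n generalizing x with
  | zero => simp
  | succ n ih =>
    rw [Function.iterate_succ_apply, ih]
    show x (i + n + 1) = x (i + ((n + 1 : ℕ) : ℤ))
    push_cast
    rw [add_assoc]

/-- The configuration with the window of `u` at the origin, the window of `v` at `n`, and `P`
alone everywhere else. -/
noncomputable def glue (L n : ℤ) (u v : ℤ → Alph) : ℤ → Alph := fun i =>
  if -L ≤ i ∧ i ≤ L then u i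
  else if n - L ≤ i ∧ i ≤ n + L then v (i - n)
  else (false, false, true)

lemma glue_u {L n : ℤ} {u v : ℤ → Alph} {i : ℤ} (h1 : -L ≤ i) (h2 : i ≤ L) :
    glue L n u v i = u i := by
  unfold glue
  rw [if_pos ⟨h1, h2⟩]

lemma glue_v {L n : ℤ} (hn : 4 * L < n) (_hL : 0 ≤ L) {u v : ℤ → Alph} {i : ℤ} (h1 : n - L ≤ i)
    (h2 : i ≤ n + L) : glue L n u v i = v (i - n) := by
  unfold glue
  rw [if_neg (by omega), if_pos ⟨h1, h2⟩]

lemma glue_out {L n : ℤ} {u v : ℤ → Alph} {i : ℤ} (h1 : ¬ (-L ≤ i ∧ i ≤ L))
    (h2 : ¬ (n - L ≤ i ∧ i ≤ n + L)) : glue L n u v i = (false, false, true) := by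
  unfold glue
  rw [if_neg h1, if_neg h2]

lemma glue_mem {L n : ℤ} (hn : 4 * L < n) (hL : 0 ≤ L) {u v : ℤ → Alph} (hu : u ∈ XX)
    (hv : v ∈ XX) : glue L n u v ∈ XX := by
  intro m s hms hM hS
  by_cases hm1 : -L ≤ m ∧ m ≤ L
  · by_cases hs1 : -L ≤ s ∧ s ≤ L
    · -- both in the first window
      rw [glue_u hm1.1 hm1.2] at hM
      rw [glue_u hs1.1 hs1.2] at hS
      by_cases hp : -L ≤ 2 * m - s
      · rw [glue_u hp (by omega)]
        exact hu m s hms hM hS
      · rw [glue_out (by omega) (by omega)]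
    · by_cases hs2 : n - L ≤ s ∧ s ≤ n + L
      · rw [glue_out (by omega) (by omega)]
      · rw [glue_out hs1 hs2] at hS
        exact absurd hS (by simp)
  · by_cases hm2 : n - L ≤ m ∧ m ≤ n + L
    · by_cases hs1 : -L ≤ s ∧ s ≤ L
      · omega
      · by_cases hs2 : n - L ≤ s ∧ s ≤ n + L
        · rw [glue_v hn hL hm2.1 hm2.2] at hM
          rw [glue_v hn hL hs2.1 hs2.2] at hS
          by_cases hp : n - L ≤ 2 * m - s
          · rw [glue_v hn hL hp (by omega)]
            have := hv (m - n) (s - n) (by omega) hM hS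
            rw [show 2 * m - s - n = 2 * (m - n) - (s - n) by ring]
            exact this
          · rw [glue_out (by omega) (by omega)]
        · rw [glue_out hs1 hs2] at hS
          exact absurd hS (by simp)
    · rw [glue_out hm1 hm2] at hM
      exact absurd hM (by simp)

lemma mixing_XX : IsTopologicallyMixing XX := by
  rintro U V hU hV ⟨u, hu⟩ ⟨v, hv⟩
  obtain ⟨U', hU', rfl⟩ := isOpen_induced_iff.1 hU
  obtain ⟨V', hV', rfl⟩ := isOpen_induced_iff.1 hV
  obtain ⟨L1, h1⟩ := window hU' (u := (u : ℤ → Alph)) hu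
  obtain ⟨L2, h2⟩ := window hV' (u := (v : ℤ → Alph)) hv
  refine ⟨4 * (L1 + L2) + 1, fun n hn => ?_⟩
  have hn' : 4 * ((L1 : ℤ) + L2) < (n : ℤ) := by omega
  have hL : (0 : ℤ) ≤ (L1 : ℤ) + L2 := by omega
  set z := glue ((L1 : ℤ) + L2) n (u : ℤ → Alph) (v : ℤ → Alph) with hz
  have hzX : z ∈ XX := glue_mem hn' hL u.2 v.2
  have hsX : ∀ k : ℕ, shift^[k] z ∈ XX := by
    intro k
    induction k with
    | zero => exact hzX
    | succ k ih =>
      rw [Function.iterate_succ_apply']
      rw [← shift_image_XX]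
      exact ⟨_, ih, rfl⟩
  refine ⟨shift^[n] z, ⟨z, ⟨⟨z, hzX⟩, ?_, rfl⟩, rfl⟩, ⟨⟨shift^[n] z, hsX n⟩, ?_, rfl⟩⟩
  · apply h1
    intro i hi1 hi2
    exact glue_u (by omega) (by omega)
  · apply h2
    intro i hi1 hi2
    show (shift^[n] z) i = (v : ℤ → Alph) i
    rw [shift_iterate, hz, glue_v hn' hL (by omega) (by omega), add_sub_cancel_right]

/-- There is a finite (discrete) alphabet and a nonempty topologically mixing subshift over `ℤ`
carrying an injective cellular automaton that is not surjective; so not every topologically mixing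
subshift over `ℤ` is surjunctive. -/
theorem result :
    ∃ (A : Type) (_ : Fintype A) (_ : TopologicalSpace A) (_ : DiscreteTopology A)
      (X : Set (ℤ → A)), X.Nonempty ∧ IsSubshift X ∧ IsTopologicallyMixing X ∧
        ¬ IsSurjunctive X :=
  ⟨Alph, inferInstance, inferInstance, inferInstance, XX, ⟨orphan, orphan_mem⟩,
    ⟨isClosed_XX, shift_image_XX⟩, mixing_XX,
    fun h => tau_not_surjective (h tau tau_isCA tau_injective)⟩

end Pool.Agent.Results.MP_451208_an.MixingNotSurjunctive
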